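import Pool.Agent.Work.MP_814e7e_nt.Main

/-!
A tail bound, uniform in `V`, for `L'/L(σ, χ)` over all primitive characters of conductor at most `Q`.
-/

set_option autoImplicit false

open Finset Filter

namespace Pool.Agent.Work.MP_814e7e_nt.Parked.TailBound

open Pool.Agent.Work.MP_814e7e_nt

theorem result : ∀ σ ε : ℝ, 1 / 2 < σ → σ < 1 → 0 < ε →
    ∃ c : ℝ, 0 < c ∧ ∃ V₀ : ℝ, ∃ Q₀ : ℕ, ∀ Q : ℕ, Q₀ ≤ Q → ∀ V : ℝ, V₀ ≤ V →
      ∑ q ∈ Finset.range Q, (Set.ncard {χ : DirichletCharacter ℂ (q + 1) | χ.IsPrimitive ∧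
          ¬ (DirichletCharacter.LFunction χ (σ : ℂ) ≠ 0 ∧
            ‖deriv (DirichletCharacter.LFunction χ) (σ : ℂ) /
              DirichletCharacter.LFunction χ (σ : ℂ)‖ ≤ V)} : ℝ)
        ≤ (Q : ℝ) ^ 2 * Real.exp (-(c * V ^ (1 / (1 - σ)) / Real.log V))
          + (Q : ℝ) ^ (3 - 2 * σ + ε) := by
  classical
  intro σ ε h0 h1 hε
  obtain ⟨c, hc, V₀, h⟩ := tail_bound h0 h1 hε
  obtain ⟨Q₀, h⟩ := eventually_atTop.1 h
  refine ⟨c, hc, V₀, Q₀, fun Q hQ V hV => le_trans (le_of_eq ?_) (h Q hQ V hV)⟩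
  unfold cnt psumQ
  rw [← Finset.Ico_add_one_right_eq_Icc, sum_Ico_eq_sum_range, Nat.add_sub_cancel]
  refine sum_congr rfl fun q _ => ?_
  rw [add_comm 1 q, sum_boole, filter_filter, ← Set.ncard_coe_finset]
  congr 2
  ext χ
  simp only [Set.mem_ofPred_eq, coe_filter, mem_univ, true_and, Bad]
  exact and_congr_right fun _ => ⟨fun h => ⟨inferInstance, h⟩, fun ⟨_, h⟩ => h⟩

/-- The case `V = C (log Q) ^ (1 - σ) (log log Q) ^ (1 - σ)` of `result`. -/
theorem conjectured_size (σ ε : ℝ) (h0 : 1 / 2 < σ) (h1 : σ < 1) (hε : 0 < ε) :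
    ∃ C : ℝ, ∀ᶠ Q : ℕ in atTop,
      ∑ q ∈ Finset.range Q, (Set.ncard {χ : DirichletCharacter ℂ (q + 1) | χ.IsPrimitive ∧
          ¬ (DirichletCharacter.LFunction χ (σ : ℂ) ≠ 0 ∧
            ‖deriv (DirichletCharacter.LFunction χ) (σ : ℂ) /
              DirichletCharacter.LFunction χ (σ : ℂ)‖ ≤
              C * Real.log Q ^ (1 - σ) * Real.log (Real.log Q) ^ (1 - σ))} : ℝ)
        ≤ 1 + (Q : ℝ) ^ (3 - 2 * σ + ε) := by
  obtain ⟨c, hc, V₀, Q₀, h⟩ := result σ ε h0 h1 hε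
  have hs : 0 < 1 - σ := by linarith
  have hT : Tendsto (fun Q : ℕ => Real.log Q) atTop atTop :=
    Real.tendsto_log_atTop.comp tendsto_natCast_atTop_atTop
  have hc6 : 0 < 6 / c := by positivity
  refine ⟨(1 + 6 / c) ^ (1 - σ), ?_⟩
  filter_upwards [eventually_ge_atTop Q₀, eventually_ge_atTop 1, hT.eventually_ge_atTop (1 + 6 / c),
    (Real.tendsto_log_atTop.comp hT).eventually_ge_atTop 1,
    ((tendsto_rpow_atTop hs).comp hT).eventually_ge_atTop (max V₀ 2)] with Q hQ hQ1 hL hl hV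
  simp only [Function.comp] at hl hV
  set L := Real.log Q with hLd
  have hL0 : 0 < L := by linarith
  have hQ0 : (0 : ℝ) < Q := by exact_mod_cast hQ1
  rw [← Real.mul_rpow (by positivity) hL0.le, ← Real.mul_rpow (by positivity) (by linarith)]
  have hX : L ≤ (1 + 6 / c) * L * Real.log L := by
    calc L = 1 * L * 1 := by ring
      _ ≤ _ := by gcongr; linarith
  have hV' := hV.trans (Real.rpow_le_rpow hL0.le hX hs.le)
  refine (h Q hQ _ ((le_max_left _ _).trans hV')).trans (add_le_add ?_ le_rfl)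
  have hlV := Real.log_pos (lt_of_lt_of_le one_lt_two ((le_max_right _ _).trans hV'))
  have a1 : Real.log (((1 + 6 / c) * L * Real.log L) ^ (1 - σ)) ≤ 3 * Real.log L := by
    have b1 : Real.log L ≤ L := (Real.log_le_sub_one_of_pos hL0).trans (by linarith)
    have b2 : ((1 + 6 / c) * L * Real.log L) ^ (1 - σ) ≤ L ^ 3 := by
      calc _ ≤ (1 + 6 / c) * L * Real.log L :=
            Real.rpow_le_self_of_one_le (by linarith) (by linarith)
        _ ≤ L * L * L := by gcongr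
        _ = _ := by ring
    have := Real.log_le_log (by positivity) b2
    rwa [Real.log_pow] at this
  rw [← Real.rpow_mul (by positivity), mul_one_div_cancel hs.ne', Real.rpow_one]
  have a2 : 2 * L ≤ c * ((1 + 6 / c) * L * Real.log L) /
      Real.log (((1 + 6 / c) * L * Real.log L) ^ (1 - σ)) := by
    rw [le_div_iff₀ hlV]
    calc _ ≤ 2 * L * (3 * Real.log L) := by gcongr
      _ = c * (6 / c * L * Real.log L) := by field_simp; ring
      _ ≤ _ := by gcongr; linarith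
  calc _ ≤ (Q : ℝ) ^ 2 * Real.exp (-(2 * L)) := by gcongr
    _ = 1 := by
      rw [Real.exp_neg, show (2 : ℝ) = (2 : ℕ) by norm_num, Real.exp_nat_mul, hLd, Real.exp_log hQ0]
      field_simp

end Pool.Agent.Work.MP_814e7e_nt.Parked.TailBound
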